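import Mathlib

set_option autoImplicit false

namespace Pool.Agent.Results.MP_2baa92_co.LargeModulus

/-- `Phi n k a` is the number of permutations `π` of the `k` indices for which the `k` elements
`a_{π(1)} + 1, …, a_{π(k)} + k` of `ℤ/n` are pairwise distinct. -/
noncomputable def Phi (n k : ℕ) (a : Fin k → ZMod n) : ℕ :=
  {π : Equiv.Perm (Fin k) |
    Function.Injective (fun i : Fin k => a (π i) + (((i : ℕ) + 1 : ℕ) : ZMod n))}.ncard

/-- `N n k` is the minimum of `Phi n k a` over all `a` in `(ℤ/n)^k`. -/
noncomputable def N (n k : ℕ) : ℕ := ⨅ a : Fin k → ZMod n, Phi n k a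

/-- A free window. -/
theorem exists_window (M k w : ℕ) (hM : 0 < M) (a : Fin k → ZMod M) (h : k * w < M) :
    ∃ c : ZMod M, ∀ x, (a x - c).val + w + 1 ≤ M := by
  have : NeZero M := ⟨hM.ne'⟩
  by_contra hcon
  push Not at hcon
  choose f hf using hcon
  have hsurj : Function.Surjective (fun p : Fin k × Fin w => a p.1 + (((p.2 : ℕ) + 1 : ℕ) : ZMod M)) := by
    intro c
    have h1 := hf c
    have h2 := ZMod.val_lt (a (f c) - c)
    refine ⟨(f c, ⟨M - 1 - (a (f c) - c).val, by omega⟩), ?_⟩
    simp only
    have h3 : ((((a (f c) - c).val : ℕ) : ZMod M)) = a (f c) - c := ZMod.natCast_zmod_val _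
    have h4 : ((M - 1 - (a (f c) - c).val + 1 + (a (f c) - c).val : ℕ) : ZMod M) = 0 := by
      have : M - 1 - (a (f c) - c).val + 1 + (a (f c) - c).val = M := by omega
      rw [this]; exact ZMod.natCast_self M
    push_cast at h4 ⊢
    rw [h3] at h4
    linear_combination h4
  have hc := Fintype.card_le_of_surjective _ hsurj
  rw [ZMod.card, Fintype.card_prod, Fintype.card_fin, Fintype.card_fin] at hc
  omega

/-- An entry followed by `k` free residues. -/
theorem exists_last (n k : ℕ) (hn : 0 < n) (a : Fin (k + 1) → ZMod n) (h : (k + 1) * k < n) :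
    ∃ x₀, ∀ y, ∀ t : ℕ, 1 ≤ t → t ≤ k → a y ≠ a x₀ + (t : ZMod n) := by
  have : NeZero n := ⟨hn.ne'⟩
  obtain ⟨c, hc⟩ := exists_window n (k + 1) k hn a h
  obtain ⟨x₀, hx₀⟩ := Finite.exists_max (fun x => (a x - c).val)
  refine ⟨x₀, fun y t ht1 ht2 hy => ?_⟩
  have h1 : a y - c = (((a x₀ - c).val + t : ℕ) : ZMod n) := by
    push_cast
    rw [ZMod.natCast_zmod_val, hy]
    ring
  have h2 := hc x₀
  have h3 : (a y - c).val = (a x₀ - c).val + t := by
    rw [h1, ZMod.val_natCast]
    exact Nat.mod_eq_of_lt (by omega)
  have h4 := hx₀ y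
  omega

/-- Extend a permutation by fixing the last index. -/
def ext {k : ℕ} (π : Equiv.Perm (Fin k)) : Equiv.Perm (Fin (k + 1)) :=
  (finSuccEquivLast.trans (Equiv.optionCongr π)).trans finSuccEquivLast.symm

theorem ext_castSucc {k : ℕ} (π : Equiv.Perm (Fin k)) (i : Fin k) :
    ext π i.castSucc = (π i).castSucc := by
  simp [ext]

theorem ext_last {k : ℕ} (π : Equiv.Perm (Fin k)) : ext π (Fin.last k) = Fin.last k := by
  simp [ext]

theorem ext_injective {k : ℕ} : Function.Injective (ext (k := k)) := by
  intro π ρ h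
  refine Equiv.ext fun i => ?_
  have := congrArg (fun s : Equiv.Perm (Fin (k + 1)) => s i.castSucc) h
  simp only [ext_castSucc] at this
  exact Fin.castSucc_injective k this

theorem phi_le (n k : ℕ) (hn : 0 < n) (a : Fin (k + 1) → ZMod n) (h : (k + 1) * k < n) :
    ∃ a' : Fin k → ZMod n, Phi n k a' ≤ Phi n (k + 1) a := by
  obtain ⟨x₀, hx₀⟩ := exists_last n k hn a h
  set σ : Equiv.Perm (Fin (k + 1)) := Equiv.swap x₀ (Fin.last k) with hσ
  have hlast : σ (Fin.last k) = x₀ := Equiv.swap_apply_right _ _
  refine ⟨fun i => a (σ i.castSucc), ?_⟩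
  unfold Phi
  apply Set.ncard_le_ncard_of_injOn (fun π => σ * ext π)
  · intro π hπ
    simp only [Set.mem_ofPred_eq] at hπ ⊢
    intro i j hij
    simp only [Equiv.Perm.coe_mul, Function.comp_apply] at hij
    induction i using Fin.lastCases with
    | last =>
      induction j using Fin.lastCases with
      | last => rfl
      | cast j =>
        exfalso
        rw [ext_last, ext_castSucc, hlast] at hij
        have hj := j.isLt
        apply hx₀ (σ (π j).castSucc) (k - j) (by omega) (by omega)
        simp only [Fin.val_last, Fin.val_castSucc] at hij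
        rw [Nat.cast_sub hj.le]
        push_cast at hij
        linear_combination -hij
    | cast i =>
      induction j using Fin.lastCases with
      | last =>
        exfalso
        rw [ext_last, ext_castSucc, hlast] at hij
        have hi := i.isLt
        apply hx₀ (σ (π i).castSucc) (k - i) (by omega) (by omega)
        simp only [Fin.val_last, Fin.val_castSucc] at hij
        rw [Nat.cast_sub hi.le]
        push_cast at hij
        linear_combination hij
      | cast j =>
        rw [ext_castSucc, ext_castSucc] at hij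
        have := hπ (a₁ := i) (a₂ := j) (by simpa using hij)
        rw [this]
  · intro π _ ρ _ hπρ
    exact ext_injective (mul_left_cancel hπρ)

/-- **The inequality `N(n, k) ≤ N(n, k+1)` of Kézdy and Snevily holds for every `k` and every
`n > k (k + 1)`.** -/
theorem result : ∀ n k : ℕ, k * (k + 1) < n → N n k ≤ N n (k + 1) := by
  intro n k hk
  apply le_ciInf
  intro a
  obtain ⟨a', ha'⟩ := phi_le n k (by omega) a (by nlinarith)
  exact (ciInf_le (OrderBot.bddBelow _) a').trans ha'

end Pool.Agent.Results.MP_2baa92_co.LargeModulus
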